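import Pool.Agent.helper47.MSW.SpecA
import Pool.Agent.helper47.MSW.SpecB

set_option autoImplicit false

namespace Pool.Agent.MSW

open Equiv Finset Function MeasureTheory Pool.Agent.helper48.PP
open Pool.Agent.DSW (Pr Has GP wt)
open scoped ENNReal Classical

noncomputable section

/-- the weight of one cell -/
def PBD_h (N : Finset Pt) (a' : Pt) (R U : ℝ≥0∞) (c : Pt) : ℝ≥0∞ :=
  if c ∈ N then 1 else if a' ≤ c then R * U ^ (nm c - nm a') else 0

theorem PBD_geo (U S : ℝ≥0∞) (hS : ∑' j : ℕ, U ^ j = S) (R : ℝ≥0∞) (a' : Pt) :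
    ∑' c : Pt, (if a' ≤ c then R * U ^ (nm c - nm a') else 0) = R * (S * S) := by
  have hinj : Function.Injective (fun d : Pt => a' + d) := fun d d' h => add_left_cancel h
  have hsup : Function.support (fun c : Pt => if a' ≤ c then R * U ^ (nm c - nm a') else 0) ⊆
      Set.range (fun d : Pt => a' + d) := by
    intro c hc
    rw [Function.mem_support] at hc
    have h1 : a' ≤ c := by
      by_contra h
      rw [if_neg h] at hc
      exact hc rfl
    exact ⟨c - a', by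
      refine Prod.ext ?_ ?_
      · show a'.1 + (c.1 - a'.1) = c.1
        have := h1.1
        omega
      · show a'.2 + (c.2 - a'.2) = c.2
        have := h1.2
        omega⟩
  rw [← hinj.tsum_eq hsup]
  have h2 : ∀ d : Pt, (if a' ≤ a' + d then R * U ^ (nm (a' + d) - nm a') else 0) =
      R * (U ^ d.1 * U ^ d.2) := by
    intro d
    have h3 : a' ≤ a' + d := le_self_add
    rw [if_pos h3]
    have h4 : nm (a' + d) - nm a' = d.1 + d.2 := by
      show (a'.1 + d.1 + (a'.2 + d.2)) - (a'.1 + a'.2) = d.1 + d.2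
      omega
    rw [h4, pow_add]
  rw [tsum_congr h2, ENNReal.tsum_mul_left]
  have h5 : ∑' d : Pt, U ^ d.1 * U ^ d.2 = ∑' (i : ℕ) (j : ℕ), U ^ i * U ^ j :=
    ENNReal.tsum_prod (f := fun i j => U ^ i * U ^ j)
  rw [h5]
  simp_rw [ENNReal.tsum_mul_left]
  rw [ENNReal.tsum_mul_right, hS]

theorem PBD_hsum (N : Finset Pt) (a' : Pt) (R U S : ℝ≥0∞) (hS : ∑' j : ℕ, U ^ j = S) :
    ∑' c : Pt, PBD_h N a' R U c ≤ N.card + R * (S * S) := by
  have h1 : ∀ c : Pt, PBD_h N a' R U c ≤ (if c ∈ N then 1 else 0) +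
      (if a' ≤ c then R * U ^ (nm c - nm a') else 0) := by
    intro c
    unfold PBD_h
    by_cases hc : c ∈ N
    · rw [if_pos hc, if_pos hc]
      exact le_self_add
    · rw [if_neg hc, if_neg hc, zero_add]
  refine (ENNReal.tsum_le_tsum h1).trans ?_
  rw [ENNReal.tsum_add, PBD_geo U S hS R a']
  refine add_le_add ?_ le_rfl
  rw [tsum_eq_sum (s := N) (fun c hc => if_neg hc)]
  rw [sum_congr rfl (fun c hc => if_pos hc)]
  simp

/-- one copy -/
theorem PBD_term {w j H : ℕ} (τ : Perm (Fin (w + 1))) (N : Finset Pt) (a' : Pt) (T R U : ℝ≥0∞)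
    (hT : T ≤ 1) (hU : U ≤ 1) (hA : ta H ≤ U ^ (w + 1)) (C : Cp (w + 1)) (hC : isC C) (hge : geP a' C)
    (hj : j ≤ (cls τ C \ N).card) :
    (T * R) ^ (cls τ C \ N).card * ta H ^ nm (tp C) ≤
      ta H ^ nm a' * (T ^ j * ∏ l, PBD_h N a' R U (C.1 l, C.2 (τ l))) := by
  set c : Fin (w + 1) → Pt := fun l => (C.1 l, C.2 (τ l)) with hc
  have hcinj : Function.Injective c := by
    intro l l' h
    exact hC.1.injective (congrArg Prod.fst h)
  set F : Finset (Fin (w + 1)) := univ.filter (fun l => ¬ c l ∈ N) with hF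
  have hcls : cls τ C \ N = F.image c := by
    ext x
    rw [mem_sdiff, mem_image]
    unfold cls
    rw [mem_image]
    constructor
    · rintro ⟨⟨l, -, rfl⟩, h2⟩
      exact ⟨l, by rw [hF, mem_filter]; exact ⟨mem_univ _, h2⟩, rfl⟩
    · rintro ⟨l, hl, rfl⟩
      rw [hF, mem_filter] at hl
      exact ⟨⟨l, mem_univ _, rfl⟩, hl.2⟩
  have hcard : (cls τ C \ N).card = F.card := by
    rw [hcls, card_image_of_injective F hcinj]
  rw [hcard] at hj ⊢
  have hFle : F.card ≤ w + 1 := by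
    refine (card_le_univ F).trans ?_
    simp
  have hge' : ∀ l, a' ≤ c l := fun l => ⟨(hge l).1, (hge (τ l)).2⟩
  have hprod : ∏ l, PBD_h N a' R U (c l) = R ^ F.card * U ^ (∑ l ∈ F, (nm (c l) - nm a')) := by
    have h1 : ∀ l, PBD_h N a' R U (c l) =
        if c l ∈ N then 1 else R * U ^ (nm (c l) - nm a') := by
      intro l
      unfold PBD_h
      by_cases h : c l ∈ N
      · rw [if_pos h, if_pos h]
      · rw [if_neg h, if_neg h, if_pos (hge' l)]
    rw [prod_congr rfl (fun l _ => h1 l), prod_ite, prod_const_one, one_mul, prod_mul_distrib,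
      prod_const, prod_pow_eq_pow_sum]
  show (T * R) ^ F.card * ta H ^ nm (tp C) ≤ ta H ^ nm a' * (T ^ j * ∏ l, PBD_h N a' R U (c l))
  rw [hprod]
  have hle : ∀ l, C.1 l ≤ C.1 (Fin.last w) ∧ C.2 l ≤ C.2 (Fin.last w) := fun l =>
    ⟨hC.1.monotone (Fin.le_last l), hC.2.monotone (Fin.le_last l)⟩
  have htp : nm (tp C) = (C.1 (Fin.last w) + 1) + (C.2 (Fin.last w) + 1) := rfl
  have hnma : nm a' ≤ nm (tp C) := by
    rw [htp]
    have h1 := (hge (Fin.last w)).1
    have h2 := (hge (Fin.last w)).2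
    show a'.1 + a'.2 ≤ _
    omega
  obtain ⟨M', hM'⟩ := Nat.exists_eq_add_of_le hnma
  have hsum : ∑ l ∈ F, (nm (c l) - nm a') ≤ (w + 1) * M' := by
    have h1 : ∀ l ∈ F, nm (c l) - nm a' ≤ M' := by
      intro l _
      have h2 : nm (c l) = C.1 l + C.2 (τ l) := rfl
      have h3 := (hle l).1
      have h4 := (hle (τ l)).2
      omega
    calc ∑ l ∈ F, (nm (c l) - nm a') ≤ F.card • M' := sum_le_card_nsmul _ _ _ h1
      _ = F.card * M' := by rw [smul_eq_mul]
      _ ≤ (w + 1) * M' := Nat.mul_le_mul_right _ hFle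
  have hAM : ta H ^ M' ≤ U ^ (∑ l ∈ F, (nm (c l) - nm a')) := by
    calc ta H ^ M' ≤ (U ^ (w + 1)) ^ M' := pow_le_pow_left₀ zero_le hA M'
      _ = U ^ ((w + 1) * M') := by rw [← pow_mul]
      _ ≤ _ := pow_le_pow_of_le_one zero_le hU hsum
  have hTj : T ^ F.card ≤ T ^ j := pow_le_pow_of_le_one zero_le hT hj
  rw [hM', pow_add, mul_pow]
  calc T ^ F.card * R ^ F.card * (ta H ^ nm a' * ta H ^ M')
      ≤ T ^ j * R ^ F.card * (ta H ^ nm a' * U ^ (∑ l ∈ F, (nm (c l) - nm a'))) := by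
        gcongr
    _ = _ := by ring

/-- the sum over the second copy -/
theorem PBD_in (hPRG : PRG_stmt) {w j H : ℕ} (τ : Perm (Fin (w + 1))) (N : Finset Pt) (a' : Pt)
    (T R U S : ℝ≥0∞) (hS : ∑' j : ℕ, U ^ j = S) (hRS : R * (S * S) ≤ 1)
    (hT : T ≤ 1) (hU : U ≤ 1) (hA : ta H ≤ U ^ (w + 1)) (hN : N.card ≤ w + 1) :
    (∑' C : Cp (w + 1), if (isC C ∧ geP a' C) ∧ j ≤ (cls τ C \ N).card then
      (T * R) ^ (cls τ C \ N).card * ta H ^ nm (tp C) else 0) ≤
    ta H ^ nm a' * (T ^ j * ((w : ℝ≥0∞) + 2) ^ (w + 1)) := by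
  have h1 : ∀ C : Cp (w + 1), (if (isC C ∧ geP a' C) ∧ j ≤ (cls τ C \ N).card then
      (T * R) ^ (cls τ C \ N).card * ta H ^ nm (tp C) else 0) ≤
      ta H ^ nm a' * (T ^ j * ∏ l, PBD_h N a' R U (C.1 l, C.2 (τ l))) := by
    intro C
    split_ifs with h
    · exact PBD_term τ N a' T R U hT hU hA C h.1.1 h.1.2 h.2
    · exact zero_le
  refine (ENNReal.tsum_le_tsum h1).trans ?_
  rw [ENNReal.tsum_mul_left, ENNReal.tsum_mul_left]
  have hinj : Function.Injective (fun (C : Cp (w + 1)) (l : Fin (w + 1)) => ((C.1 l, C.2 (τ l)) : Pt)) := by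
    intro C C' h
    refine Prod.ext ?_ ?_
    · funext l
      exact congrArg Prod.fst (congrFun h l)
    · funext l
      have h2 := congrArg Prod.snd (congrFun h (τ.symm l))
      simpa using h2
  have h2 : ∑' C : Cp (w + 1), ∏ l, PBD_h N a' R U (C.1 l, C.2 (τ l)) ≤
      ∑' x : Fin (w + 1) → Pt, ∏ l, PBD_h N a' R U (x l) :=
    ENNReal.tsum_comp_le_tsum_of_injective hinj (fun x => ∏ l, PBD_h N a' R U (x l))
  rw [hPRG (Fin (w + 1)) Pt (fun _ c => PBD_h N a' R U c)] at h2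
  rw [prod_const, card_univ, Fintype.card_fin] at h2
  have h3 : ∑' c : Pt, PBD_h N a' R U c ≤ (w : ℝ≥0∞) + 2 := by
    refine (PBD_hsum N a' R U S hS).trans ?_
    have h4 : (N.card : ℝ≥0∞) ≤ ((w + 1 : ℕ) : ℝ≥0∞) := by exact_mod_cast hN
    calc (N.card : ℝ≥0∞) + R * (S * S) ≤ ((w + 1 : ℕ) : ℝ≥0∞) + 1 := add_le_add h4 hRS
      _ = (w : ℝ≥0∞) + 2 := by
          push_cast
          rw [add_assoc]
          norm_num
  refine mul_le_mul_right (mul_le_mul_right (h2.trans ?_) _) _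
  exact pow_le_pow_left₀ zero_le h3 _

theorem PBD (hPRG : PRG_stmt) (hGEW : GEW_stmt) (hSBD : SBD_stmt) : PBD_stmt := by
  intro w j H θ τ a a' hH hθ ht
  set t : ℝ := 16 * ((w : ℝ) + 1) ^ 2 * θ with htdef
  have ht0 : 0 < t := by
    rw [htdef]
    positivity
  have hHR : (1 : ℝ) ≤ H := by exact_mod_cast hH
  have hH0 : (0 : ℝ) < H := by linarith
  set T : ℝ≥0∞ := ENNReal.ofReal t with hT
  set R : ℝ≥0∞ := ENNReal.ofReal (1 / (16 * ((w : ℝ) + 1) ^ 2 * (H : ℝ) ^ 2)) with hR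
  obtain ⟨hA, hU, hS⟩ := (hGEW H hH).2.2.2.1 (w + 1) (by omega)
  set U : ℝ≥0∞ := up (w + 1) H with hUdef
  have hP : ENNReal.ofReal (den θ H) = T * R := by
    rw [hT, hR, ← ENNReal.ofReal_mul ht0.le]
    congr 1
    unfold den
    rw [htdef]
    field_simp
  have hSval : 2 * ((w + 1 : ℕ) : ℝ≥0∞) * ((H : ℝ≥0∞) + 1) =
      ENNReal.ofReal (2 * ((w : ℝ) + 1) * ((H : ℝ) + 1)) := by
    rw [ENNReal.ofReal_mul (by positivity), ENNReal.ofReal_mul (by norm_num),
      ENNReal.ofReal_add (by positivity) (by norm_num), ENNReal.ofReal_add (by positivity) (by norm_num)]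
    simp
  have hRS : R * ((2 * ((w + 1 : ℕ) : ℝ≥0∞) * ((H : ℝ≥0∞) + 1)) *
      (2 * ((w + 1 : ℕ) : ℝ≥0∞) * ((H : ℝ≥0∞) + 1))) ≤ 1 := by
    rw [hSval, hR, ← ENNReal.ofReal_mul (by positivity), ← ENNReal.ofReal_mul (by positivity)]
    rw [ENNReal.ofReal_le_one]
    rw [one_div_mul_eq_div, div_le_one (by positivity)]
    have h1 : 2 * ((w : ℝ) + 1) * ((H : ℝ) + 1) ≤ 4 * ((w : ℝ) + 1) * H := by
      have h2 : (0 : ℝ) ≤ (w : ℝ) + 1 := by positivity
      nlinarith
    calc 2 * ((w : ℝ) + 1) * ((H : ℝ) + 1) * (2 * ((w : ℝ) + 1) * ((H : ℝ) + 1))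
        ≤ 4 * ((w : ℝ) + 1) * H * (4 * ((w : ℝ) + 1) * H) :=
          mul_le_mul h1 h1 (by positivity) (by positivity)
      _ = _ := by ring
  have hT1 : T ≤ 1 := by
    rw [hT, ENNReal.ofReal_le_one]
    exact ht
  set B : ℝ≥0∞ := ta H ^ nm a' * (T ^ j * ((w : ℝ≥0∞) + 2) ^ (w + 1)) with hB
  -- the splitting
  have hsplit : ∀ C C' : Cp (w + 1),
      (if (isC C ∧ geP a C) ∧ (isC C' ∧ geP a' C') ∧ j ≤ (cls τ C' \ cls τ C).card then
        ENNReal.ofReal (den θ H) ^ (cls τ C ∪ cls τ C').card * ta H ^ (nm (tp C) + nm (tp C')) else 0) ≤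
      (if isC C ∧ geP a C then ENNReal.ofReal (den θ H) ^ (w + 1) * ta H ^ nm (tp C) else 0) *
      (if (isC C' ∧ geP a' C') ∧ j ≤ (cls τ C' \ cls τ C).card then
      (T * R) ^ (cls τ C' \ cls τ C).card * ta H ^ nm (tp C') else 0) := by
    intro C C'
    by_cases h : (isC C ∧ geP a C) ∧ (isC C' ∧ geP a' C') ∧ j ≤ (cls τ C' \ cls τ C).card
    · rw [if_pos h, if_pos h.1, if_pos h.2, ← hP]
      have hcinj : Function.Injective (fun l => ((C.1 l, C.2 (τ l)) : Pt)) := by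
        intro l l' h'
        exact h.1.1.1.injective (congrArg Prod.fst h')
      have hcard : (cls τ C).card = w + 1 := by
        unfold cls
        rw [card_image_of_injective _ hcinj, card_univ, Fintype.card_fin]
      have hun : (cls τ C ∪ cls τ C').card = (w + 1) + (cls τ C' \ cls τ C).card := by
        rw [← union_sdiff_self_eq_union, card_union_of_disjoint disjoint_sdiff, hcard]
      rw [hun, pow_add, pow_add]
      exact le_of_eq (by ring)
    · rw [if_neg h]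
      exact zero_le
  calc (∑' CC : Cp (w + 1) × Cp (w + 1),
    if (isC CC.1 ∧ geP a CC.1) ∧ (isC CC.2 ∧ geP a' CC.2) ∧
      j ≤ (cls τ CC.2 \ cls τ CC.1).card then
    ENNReal.ofReal (den θ H) ^ (cls τ CC.1 ∪ cls τ CC.2).card *
      ta H ^ (nm (tp CC.1) + nm (tp CC.2)) else 0)
      ≤ ∑' CC : Cp (w + 1) × Cp (w + 1),
        (if isC CC.1 ∧ geP a CC.1 then ENNReal.ofReal (den θ H) ^ (w + 1) * ta H ^ nm (tp CC.1) else 0) *
      (if (isC CC.2 ∧ geP a' CC.2) ∧ j ≤ (cls τ CC.2 \ cls τ CC.1).card then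
      (T * R) ^ (cls τ CC.2 \ cls τ CC.1).card * ta H ^ nm (tp CC.2) else 0) :=
        ENNReal.tsum_le_tsum fun CC => hsplit CC.1 CC.2
    _ = ∑' (C : Cp (w + 1)) (C' : Cp (w + 1)),
        (if isC C ∧ geP a C then ENNReal.ofReal (den θ H) ^ (w + 1) * ta H ^ nm (tp C) else 0) *
      (if (isC C' ∧ geP a' C') ∧ j ≤ (cls τ C' \ cls τ C).card then
      (T * R) ^ (cls τ C' \ cls τ C).card * ta H ^ nm (tp C') else 0) :=
        ENNReal.tsum_prod (f := fun C C' =>
          (if isC C ∧ geP a C then ENNReal.ofReal (den θ H) ^ (w + 1) * ta H ^ nm (tp C) else 0) *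
      (if (isC C' ∧ geP a' C') ∧ j ≤ (cls τ C' \ cls τ C).card then
      (T * R) ^ (cls τ C' \ cls τ C).card * ta H ^ nm (tp C') else 0))
    _ ≤ ∑' C : Cp (w + 1),
        (if isC C ∧ geP a C then ENNReal.ofReal (den θ H) ^ (w + 1) * ta H ^ nm (tp C) else 0) * B := by
        refine ENNReal.tsum_le_tsum fun C => ?_
        rw [ENNReal.tsum_mul_left]
        by_cases h : isC C ∧ geP a C
        · refine mul_le_mul_right ?_ _
          have hcinj : Function.Injective (fun l => ((C.1 l, C.2 (τ l)) : Pt)) := by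
            intro l l' h'
            exact h.1.1.injective (congrArg Prod.fst h')
          have hcard : (cls τ C).card ≤ w + 1 := by
            unfold cls
            rw [card_image_of_injective _ hcinj, card_univ, Fintype.card_fin]
          exact PBD_in hPRG τ (cls τ C) a' T R U _ hS hRS hT1 hU hA hcard
        · rw [if_neg h, zero_mul, zero_mul]
    _ = (∑' C : Cp (w + 1),
        (if isC C ∧ geP a C then ENNReal.ofReal (den θ H) ^ (w + 1) * ta H ^ nm (tp C) else 0)) * B :=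
        ENNReal.tsum_mul_right
    _ ≤ (ta H ^ nm a * ENNReal.ofReal (t ^ (w + 1))) * B :=
        mul_le_mul_left (hSBD w H θ a hH hθ.le) _
    _ = ta H ^ (nm a + nm a') * ENNReal.ofReal (((w : ℝ) + 2) ^ (w + 1) * t ^ (w + 1 + j)) := by
        have h1 : ENNReal.ofReal (((w : ℝ) + 2) ^ (w + 1) * t ^ (w + 1 + j)) =
            ((w : ℝ≥0∞) + 2) ^ (w + 1) * (T ^ (w + 1) * T ^ j) := by
          have h2 : ENNReal.ofReal ((w : ℝ) + 2) = (w : ℝ≥0∞) + 2 := by
            rw [ENNReal.ofReal_add (by positivity) (by norm_num)]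
            simp
          rw [ENNReal.ofReal_mul (by positivity), ENNReal.ofReal_pow (by positivity),
            ENNReal.ofReal_pow ht0.le, ← pow_add, h2]
        rw [h1, hB, ENNReal.ofReal_pow ht0.le, pow_add (ta H)]
        ring

end

end Pool.Agent.MSW
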