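import Pool.Agent.helper47.MSW.SpecA
import Pool.Agent.helper47.MSW.SpecC

set_option autoImplicit false

namespace Pool.Agent.MSW

open Equiv Finset Function MeasureTheory Pool.Agent.helper48.PP
open Pool.Agent.DSW (Pr Has GP wt)
open scoped ENNReal Classical

noncomputable section

theorem TSE_reindex {X Y : Type} (f : X → ℝ≥0∞) (h : Y → ℝ≥0∞) (g : X → Y) (k : Y → X)
    (H1 : ∀ x, f x ≠ 0 → k (g x) = x ∧ f x ≤ h (g x)) : ∑' x, f x ≤ ∑' y, h y := by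
  calc ∑' x, f x ≤ ∑' x, ∑' y, (if x = k y then h y else 0) := by
        refine ENNReal.tsum_le_tsum fun x => ?_
        by_cases hx : f x = 0
        · rw [hx]
          exact zero_le
        · obtain ⟨h1, h2⟩ := H1 x hx
          have h3 : (if x = k (g x) then h (g x) else 0) ≤ ∑' y, (if x = k y then h y else 0) :=
            ENNReal.le_tsum (f := fun y => if x = k y then h y else 0) (g x)
          rw [if_pos h1.symm] at h3
          exact h2.trans h3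
    _ = ∑' y, ∑' x, (if x = k y then h y else 0) := ENNReal.tsum_comm
    _ = ∑' y, h y := tsum_congr fun y => tsum_ite_eq (k y) _

/-- the weighted function -/
def TSE_u (H : ℕ) (F : Pt → Pt → ℝ≥0∞) (pp : Pt × Pt) : ℝ≥0∞ :=
  ta H ^ (nm pp.1 + nm pp.2) * F pp.1 pp.2

def TSE_a (H : ℕ) (F : Pt → Pt → ℝ≥0∞) (pp : Pt × Pt) : ℝ≥0∞ :=
  if pp.1 = pp.2 then 0 else TSE_u H F pp

def TSE_b (H : ℕ) (F : Pt → Pt → ℝ≥0∞) (pp : Pt × Pt) : ℝ≥0∞ :=
  if pp.1 = pp.2 then TSE_u H F pp else 0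

theorem TSE_sumb (H : ℕ) (F : Pt → Pt → ℝ≥0∞) : ∑' pp, TSE_b H F pp = S1 H F := by
  have h1 : ∑' pp : Pt × Pt, TSE_b H F pp = ∑' (p : Pt) (p' : Pt), TSE_b H F (p, p') :=
    ENNReal.tsum_prod (f := fun p p' => TSE_b H F (p, p'))
  rw [h1]
  unfold S1
  refine tsum_congr fun p => ?_
  have h2 : ∀ p' : Pt, TSE_b H F (p, p') = if p' = p then ta H ^ (2 * nm p) * F p p else 0 := by
    intro p'
    unfold TSE_b TSE_u
    by_cases h : p' = p
    · subst h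
      rw [if_pos rfl, if_pos rfl]
      rw [two_mul]
    · rw [if_neg h, if_neg (fun h' => h h'.symm)]
  rw [tsum_congr h2]
  exact tsum_ite_eq p _

theorem TSE_sum (H : ℕ) (F G : Pt → Pt → ℝ≥0∞) :
    ∑' y : (Pt × Pt) × (Pt × Pt), (if y.1.1 = y.1.2 ∧ y.2.1 = y.2.2 then 0 else
      TSE_u H F y.1 * TSE_u H G y.2) =
    S2 H F * S1 H G + S1 H F * S2 H G + S2 H F * S2 H G := by
  have h1 : ∀ y : (Pt × Pt) × (Pt × Pt), (if y.1.1 = y.1.2 ∧ y.2.1 = y.2.2 then 0 else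
      TSE_u H F y.1 * TSE_u H G y.2) = TSE_a H F y.1 * TSE_b H G y.2 +
        TSE_b H F y.1 * TSE_a H G y.2 + TSE_a H F y.1 * TSE_a H G y.2 := by
    intro y
    unfold TSE_a TSE_b
    by_cases ha : y.1.1 = y.1.2
    · by_cases hb : y.2.1 = y.2.2
      · simp [ha, hb]
      · simp [ha, hb]
    · by_cases hb : y.2.1 = y.2.2
      · simp [ha, hb]
      · simp [ha, hb]
  have key : ∀ A B : Pt × Pt → ℝ≥0∞, ∑' y : (Pt × Pt) × (Pt × Pt), A y.1 * B y.2 =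
      (∑' x, A x) * ∑' x, B x := by
    intro A B
    have h2 : ∑' y : (Pt × Pt) × (Pt × Pt), A y.1 * B y.2 = ∑' (x : Pt × Pt) (x' : Pt × Pt), A x * B x' :=
      ENNReal.tsum_prod (f := fun x x' => A x * B x')
    rw [h2]
    simp_rw [ENNReal.tsum_mul_left]
    rw [ENNReal.tsum_mul_right]
  rw [tsum_congr h1, ENNReal.tsum_add, ENNReal.tsum_add, key, key, key, TSE_sumb, TSE_sumb]
  rfl

theorem TSE (hGEW : GEW_stmt) : TSE_stmt := by
  intro H F G φ hH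
  obtain ⟨⟨hta, -⟩, hw, -⟩ := hGEW H hH
  set K : ℝ≥0∞ := (((H : ℝ≥0∞) + 1) ^ 2)⁻¹ with hK
  have hH1 : ((H : ℝ≥0∞) + 1) ^ 2 ≠ 0 := by
    have : (H : ℝ≥0∞) + 1 ≠ 0 := by simp
    exact pow_ne_zero 2 this
  have hH2 : ((H : ℝ≥0∞) + 1) ^ 2 ≠ ⊤ := by
    refine ENNReal.pow_ne_top ?_
    simp
  have hwt : ∀ w : Pt, wt H w.1 * wt H w.2 = K * ta H ^ (2 * nm w) := by
    intro w
    rw [← hw w, hK, mul_comm (((H : ℝ≥0∞) + 1) ^ 2)⁻¹, mul_assoc, ENNReal.mul_inv_cancel hH1 hH2,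
      mul_one]
  set f : Pt × ((Pt × Pt) × (Pt × Pt)) → ℝ≥0∞ := fun x => wt H x.1.1 * wt H x.1.2 *
    (if (x.2.1.1 ≤ x.2.1.2 ∧ x.2.1.2 ≤ x.1) ∧ (x.2.2.1 ≤ x.2.2.2 ∧ x.2.2.2 ≤ x.1) ∧ x.2.1 ≠ x.2.2 then
      F x.2.1.1 x.2.2.1 * G (x.1 - x.2.1.2) (x.1 - x.2.2.2) * φ (x.2.1.2 - x.2.1.1) else 0) with hf
  set h : Pt × ((Pt × Pt) × (Pt × Pt)) → ℝ≥0∞ := fun y => K * (ta H ^ nm y.1 * φ y.1) *
    (if y.2.1.1 = y.2.1.2 ∧ y.2.2.1 = y.2.2.2 then 0 else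
      TSE_u H F y.2.1 * TSE_u H G y.2.2) with hh
  have hLHS : ∑' w : Pt, wt H w.1 * wt H w.2 * (∑' r : (Pt × Pt) × (Pt × Pt),
      if (r.1.1 ≤ r.1.2 ∧ r.1.2 ≤ w) ∧ (r.2.1 ≤ r.2.2 ∧ r.2.2 ≤ w) ∧ r.1 ≠ r.2 then
      F r.1.1 r.2.1 * G (w - r.1.2) (w - r.2.2) * φ (r.1.2 - r.1.1) else 0) = ∑' x, f x := by
    have h1 : ∑' x, f x = ∑' (w : Pt) (r : (Pt × Pt) × (Pt × Pt)), f (w, r) :=
      ENNReal.tsum_prod (f := fun w r => f (w, r))
    rw [h1]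
    refine tsum_congr fun w => ?_
    rw [← ENNReal.tsum_mul_left]
  have hRHS : ∑' y, h y = K * (∑' s : Pt, ta H ^ nm s * φ s) *
      (S2 H F * S1 H G + S1 H F * S2 H G + S2 H F * S2 H G) := by
    have h1 : ∑' y, h y = ∑' (s : Pt) (r : (Pt × Pt) × (Pt × Pt)), h (s, r) :=
      ENNReal.tsum_prod (f := fun s r => h (s, r))
    rw [h1, ← TSE_sum]
    simp only [hh]
    simp_rw [ENNReal.tsum_mul_left]
    rw [ENNReal.tsum_mul_right, ENNReal.tsum_mul_left]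
  rw [hLHS, ← hRHS]
  refine TSE_reindex f h (fun x => (x.2.1.2 - x.2.1.1, (x.2.1.1, x.2.2.1), (x.1 - x.2.1.2, x.1 - x.2.2.2)))
    (fun y => (y.2.1.1 + y.1 + y.2.2.1, (y.2.1.1, y.2.1.1 + y.1),
      (y.2.1.2, y.2.1.1 + y.1 + y.2.2.1 - y.2.2.2))) ?_
  rintro ⟨w, ⟨p, q⟩, ⟨p', q'⟩⟩ hx
  simp only [hf] at hx
  by_cases hc : (p ≤ q ∧ q ≤ w) ∧ (p' ≤ q' ∧ q' ≤ w) ∧ ((p, q) : Pt × Pt) ≠ (p', q')
  swap
  · exact absurd (by rw [if_neg hc, mul_zero]) hx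
  obtain ⟨⟨hpq, hqw⟩, ⟨hpq', hqw'⟩, hne⟩ := hc
  have e1 : p + (q - p) = q := by
    refine Prod.ext ?_ ?_
    · show p.1 + (q.1 - p.1) = q.1
      have := hpq.1
      omega
    · show p.2 + (q.2 - p.2) = q.2
      have := hpq.2
      omega
  have e2 : q + (w - q) = w := by
    refine Prod.ext ?_ ?_
    · show q.1 + (w.1 - q.1) = w.1
      have := hqw.1
      omega
    · show q.2 + (w.2 - q.2) = w.2
      have := hqw.2
      omega
  have e3 : w - (w - q') = q' := by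
    refine Prod.ext ?_ ?_
    · show w.1 - (w.1 - q'.1) = q'.1
      have := hqw'.1
      omega
    · show w.2 - (w.2 - q'.2) = q'.2
      have := hqw'.2
      omega
  refine ⟨?_, ?_⟩
  · show ((p + (q - p) + (w - q), (p, p + (q - p)), (p', p + (q - p) + (w - q) - (w - q'))) :
      Pt × ((Pt × Pt) × (Pt × Pt))) = (w, (p, q), (p', q'))
    rw [e1, e2, e3]
  · simp only [hf, hh]
    have hc : (p ≤ q ∧ q ≤ w) ∧ (p' ≤ q' ∧ q' ≤ w) ∧ ((p, q) : Pt × Pt) ≠ (p', q') :=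
      ⟨⟨hpq, hqw⟩, ⟨hpq', hqw'⟩, hne⟩
    rw [if_pos hc]
    have hc' : ¬ (p = p' ∧ w - q = w - q') := by
      rintro ⟨h1, h2⟩
      apply hne
      have h3 : q = q' := by
        have h4 : w - (w - q) = q := by
          refine Prod.ext ?_ ?_
          · show w.1 - (w.1 - q.1) = q.1
            have := hqw.1
            omega
          · show w.2 - (w.2 - q.2) = q.2
            have := hqw.2
            omega
        rw [← h4, h2, e3]
      rw [h1, h3]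
    rw [if_neg hc', hwt w]
    unfold TSE_u
    have hnm : nm (q - p) + ((nm p + nm p') + (nm (w - q) + nm (w - q'))) ≤ 2 * nm w := by
      show (q.1 - p.1) + (q.2 - p.2) + ((p.1 + p.2 + (p'.1 + p'.2)) +
        ((w.1 - q.1) + (w.2 - q.2) + ((w.1 - q'.1) + (w.2 - q'.2)))) ≤ 2 * (w.1 + w.2)
      have h1 := hpq.1
      have h2 := hpq.2
      have h3 := hqw.1
      have h4 := hqw.2
      have h5 := hpq'.1
      have h6 := hpq'.2
      have h7 := hqw'.1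
      have h8 := hqw'.2
      omega
    have hpow : ta H ^ (2 * nm w) ≤ ta H ^ nm (q - p) *
        (ta H ^ (nm p + nm p') * ta H ^ (nm (w - q) + nm (w - q'))) := by
      rw [← pow_add, ← pow_add]
      exact pow_le_pow_of_le_one zero_le hta hnm
    calc K * ta H ^ (2 * nm w) * (F p p' * G (w - q) (w - q') * φ (q - p))
        ≤ K * (ta H ^ nm (q - p) *
        (ta H ^ (nm p + nm p') * ta H ^ (nm (w - q) + nm (w - q')))) *
          (F p p' * G (w - q) (w - q') * φ (q - p)) := by gcongr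
      _ = _ := by ring

end

end Pool.Agent.MSW
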